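import Mathlib

set_option autoImplicit false

/-!
Veto interval graphs have unbounded chromatic number: every natural number is the chromatic number
of a finite veto interval graph.
-/

namespace Pool.Agent.Results.MP_2fc053_co.Unbounded

/-- A veto interval: the closed interval `[l, r]` with an interior veto mark `v`. -/
structure VetoInterval where
  /-- left end -/
  l : ℝ
  /-- veto mark -/
  v : ℝ
  /-- right end -/
  r : ℝ
  l_lt_v : l < v
  v_lt_r : v < r

/-- The adjacency condition for two veto intervals: they meet and neither contains the veto mark of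
the other, that is `a_v < b_l < a_r < b_v` or `b_v < a_l < b_r < a_v`. -/
def VetoInterval.Linked (a b : VetoInterval) : Prop :=
  (a.v < b.l ∧ b.l < a.r ∧ a.r < b.v) ∨ (b.v < a.l ∧ a.l < b.r ∧ b.r < a.v)

/-- `G` is a veto interval graph: it is represented by pairwise different veto intervals, two
distinct vertices being adjacent exactly when their veto intervals are linked. -/
def IsVetoIntervalGraph {V : Type} (G : SimpleGraph V) : Prop :=
  ∃ I : V → VetoInterval, Function.Injective I ∧
    ∀ a b : V, a ≠ b → (G.Adj a b ↔ (I a).Linked (I b))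

/-- The shift graph on the pairs `i < j < N`; `(i, j)` and `(j, k)` are adjacent. -/
def shift (N : ℕ) : SimpleGraph {p : Fin N × Fin N // p.1 < p.2} where
  Adj p q := p.1.2 = q.1.1 ∨ q.1.2 = p.1.1
  symm := ⟨fun _ _ h => h.symm⟩
  loopless := ⟨by
    rintro ⟨p, hp⟩ (h | h)
    · exact absurd h hp.ne'
    · exact absurd h hp.ne'⟩

/-- The veto interval `(i, j - 1/4, j + 1/4)` of the pair `(i, j)`. -/
noncomputable def rep (N : ℕ) (p : {p : Fin N × Fin N // p.1 < p.2}) : VetoInterval where
  l := (p.1.1 : ℕ)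
  v := (p.1.2 : ℕ) - 1 / 4
  r := (p.1.2 : ℕ) + 1 / 4
  l_lt_v := by
    have h : ((p.1.1 : ℕ) : ℝ) + 1 ≤ ((p.1.2 : ℕ) : ℝ) := by
      have := Fin.lt_def.1 p.2
      exact_mod_cast this
    linarith
  v_lt_r := by linarith

theorem linked_one (j k l : ℕ) (hkl : k < l) :
    ((j : ℝ) - 1 / 4 < k ∧ (k : ℝ) < j + 1 / 4 ∧ (j : ℝ) + 1 / 4 < l - 1 / 4) ↔ j = k := by
  constructor
  · rintro ⟨h1, h2, -⟩
    have h3 : (j : ℝ) < k + 1 := by linarith
    have h4 : (k : ℝ) < j + 1 := by linarith
    have h5 : j < k + 1 := by exact_mod_cast h3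
    have h6 : k < j + 1 := by exact_mod_cast h4
    omega
  · rintro rfl
    have : (j : ℝ) + 1 ≤ l := by exact_mod_cast hkl
    exact ⟨by linarith, by linarith, by linarith⟩

theorem shift_isVeto (N : ℕ) : IsVetoIntervalGraph (shift N) := by
  refine ⟨rep N, ?_, ?_⟩
  · rintro ⟨⟨i, j⟩, hij⟩ ⟨⟨k, l⟩, hkl⟩ h
    have h1 : ((i : ℕ) : ℝ) = ((k : ℕ) : ℝ) := congrArg VetoInterval.l h
    have h2 : ((j : ℕ) : ℝ) + 1 / 4 = ((l : ℕ) : ℝ) + 1 / 4 := congrArg VetoInterval.r h
    have h3 : (i : ℕ) = k := by exact_mod_cast h1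
    have h4 : (j : ℕ) = l := by
      have : ((j : ℕ) : ℝ) = ((l : ℕ) : ℝ) := by linarith
      exact_mod_cast this
    simp [Fin.ext_iff, h3, h4]
  · rintro ⟨⟨i, j⟩, hij⟩ ⟨⟨k, l⟩, hkl⟩ -
    have e1 := linked_one j k l (Fin.lt_def.1 hkl)
    have e2 := linked_one l i j (Fin.lt_def.1 hij)
    unfold VetoInterval.Linked
    simp only [shift, rep]
    rw [e1, e2, Fin.ext_iff, Fin.ext_iff]

/-- A proper colouring of the shift graph on `N` points with `c` colours gives `N` different sets
of colours. -/
theorem le_of_colorable {N c : ℕ} (h : (shift N).Colorable c) : N ≤ 2 ^ c := by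
  classical
  obtain ⟨C⟩ := h
  let A : Fin N → Finset (Fin c) := fun i =>
    Finset.univ.filter fun x => ∃ (j : Fin N) (hj : i < j), C ⟨(i, j), hj⟩ = x
  have hinj : Function.Injective A := by
    have key : ∀ i j : Fin N, i < j → A i ≠ A j := by
      intro i j hij heq
      have h1 : C ⟨(i, j), hij⟩ ∈ A i := by
        simp only [A, Finset.mem_filter, Finset.mem_univ, true_and]
        exact ⟨j, hij, rfl⟩
      rw [heq] at h1
      simp only [A, Finset.mem_filter, Finset.mem_univ, true_and] at h1
      obtain ⟨k, hk, hk2⟩ := h1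
      have hadj : (shift N).Adj ⟨(j, k), hk⟩ ⟨(i, j), hij⟩ := Or.inr rfl
      exact C.valid hadj hk2
    intro i j hij
    rcases lt_trichotomy i j with h | h | h
    · exact absurd hij (key i j h)
    · exact h
    · exact absurd hij.symm (key j i h)
  have := Fintype.card_le_of_injective A hinj
  simpa using this

theorem exists_bit (k : ℕ) : ∀ i j : ℕ, i < j → j < 2 ^ k →
    ∃ t : ℕ, t < k ∧ i.testBit t = false ∧ j.testBit t = true := by
  induction k with
  | zero => intro i j h1 h2; omega
  | succ k ih =>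
    intro i j h1 h2
    by_cases h : i / 2 < j / 2
    · obtain ⟨t, ht, h3, h4⟩ := ih (i / 2) (j / 2) h (by rw [pow_succ] at h2; omega)
      exact ⟨t + 1, by omega, by rw [Nat.testBit_succ]; exact h3, by
        rw [Nat.testBit_succ]; exact h4⟩
    · refine ⟨0, by omega, ?_, ?_⟩
      · rw [Nat.testBit_zero]
        simp only [decide_eq_false_iff_not]
        omega
      · rw [Nat.testBit_zero]
        simp only [decide_eq_true_eq]
        omega

theorem colorable (k : ℕ) : (shift (2 ^ k)).Colorable k := by
  classical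
  have hex : ∀ p : {p : Fin (2 ^ k) × Fin (2 ^ k) // p.1 < p.2}, ∃ t : Fin k,
      (p.1.1 : ℕ).testBit t = false ∧ (p.1.2 : ℕ).testBit t = true := by
    intro p
    obtain ⟨t, ht, h1, h2⟩ := exists_bit k p.1.1 p.1.2 (Fin.lt_def.1 p.2) p.1.2.2
    exact ⟨⟨t, ht⟩, h1, h2⟩
  choose f hf using hex
  refine ⟨SimpleGraph.Coloring.mk f ?_⟩
  rintro p q (h | h) heq
  · have h1 := (hf p).2
    have h2 := (hf q).1
    rw [h, heq, h2] at h1
    exact absurd h1 (by simp)
  · have h1 := (hf q).2
    have h2 := (hf p).1
    rw [h, ← heq, h2] at h1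
    exact absurd h1 (by simp)

/-- For every natural number `k` there is a finite veto interval graph with chromatic number
exactly `k`. In particular some veto interval graph has chromatic number `5`, and the chromatic
number of veto interval graphs is unbounded. -/
theorem result : ∀ k : ℕ, ∃ (V : Type) (_ : Fintype V) (G : SimpleGraph V),
    IsVetoIntervalGraph G ∧ G.chromaticNumber = k := by
  intro k
  refine ⟨_, inferInstance, shift (2 ^ k), shift_isVeto _, le_antisymm ?_ ?_⟩
  · exact (colorable k).chromaticNumber_le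
  · by_contra hlt
    rw [not_le] at hlt
    obtain ⟨c, hc⟩ := ENat.ne_top_iff_exists.1 (ne_top_of_lt hlt)
    rw [← hc] at hlt
    have hck : c < k := by exact_mod_cast hlt
    have hcol : (shift (2 ^ k)).Colorable c := by
      rw [← SimpleGraph.chromaticNumber_le_iff_colorable, ← hc]
    have := le_of_colorable hcol
    have h2 : 2 ^ c < 2 ^ k := Nat.pow_lt_pow_right (by norm_num) hck
    omega

end Pool.Agent.Results.MP_2fc053_co.Unbounded
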